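import Pool.Agent.AEN.Stmts

/-!
# Anderson model, the cheap end, row MEA (helper77): measurability
-/

set_option autoImplicit false

open MeasureTheory ProbabilityTheory Function Filter

open scoped ENNReal BigOperators InnerProductSpace Topology

noncomputable section

namespace Pool.Agent.AEN.H77

open Pool.Agent.Anderson Pool.Agent.Loc Pool.Agent.Helper54.Bal

theorem cont_Gn (d : ℕ) (E : ℝ) (n : ℕ) (x : Site d) :
    Continuous fun V : Site d → ℝ => Gn V E n x := by
  have h0 : Continuous fun V : Site d → ℝ => (V, E, (del x : L2 d)) :=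
    continuous_id.prodMk continuous_const
  have h := (continuous_G (d := d) (η := et n) (et_pos n).ne').comp h0
  unfold Gn zn
  exact h

theorem cont_Gny (d : ℕ) (E : ℝ) (n : ℕ) (x y : Site d) :
    Continuous fun V : Site d → ℝ => Gn V E n x y := by
  have h : (fun V : Site d → ℝ => Gn V E n x y) =
      fun V : Site d → ℝ => ⟪(del y : L2 d), Gn V E n x⟫_ℂ := by
    funext V
    rw [inner_del_left]
  rw [h]
  exact continuous_const.inner (cont_Gn d E n x)

/-- MEA -/
theorem mea : MeaStmt := by
  intro d E x y
  constructor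
  · have h : {V : Site d → ℝ | Bd V E x} =
        ⋃ C : ℕ, ⋂ n : ℕ, {V : Site d → ℝ | ‖Gn V E n x‖ ≤ (C : ℝ)} := by
      ext V
      rw [Set.mem_iUnion]
      constructor
      · rintro ⟨C, hC⟩
        obtain ⟨N, hN⟩ := exists_nat_ge C
        exact ⟨N, Set.mem_iInter.2 fun n => (hC n).trans hN⟩
      · rintro ⟨C, hC⟩
        exact ⟨C, fun n => Set.mem_iInter.1 hC n⟩
    rw [h]
    refine MeasurableSet.iUnion fun C => MeasurableSet.iInter fun n => ?_
    exact measurableSet_le (cont_Gn d E n x).norm.measurable measurable_const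
  · exact measurableSet_tendsto (𝓝 (0 : ℂ)) fun n => (cont_Gny d E n x y).measurable

end Pool.Agent.AEN.H77
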